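import Pool.Agent.Helper75.CR.St2

/-! Module N4 of project CR. -/

set_option autoImplicit false

namespace Pool.Agent.Helper39.CR

open Pool.Agent.Helper75.CR Helper1.IM

theorem prd_app_st (s : Wd) (hs : s ≠ []) : Prd (s ++ st s) := by
  obtain ⟨a, s', rfl⟩ := List.exists_cons_of_ne_nil hs
  rcases a with ⟨i, b⟩
  refine ⟨i, ?_⟩
  cases b <;> simp [fl]

theorem sb_replicate (f : ℕ → Wd) (w : Wd)
    (h : ∀ b ∈ w, (if b.2 then st (f b.1) else f b.1) = [X 0]) :
    sb f w = List.replicate w.length (X 0) := by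
  induction w with
  | nil => rfl
  | cons a w ih =>
    rw [sb_cons, h a (by simp), ih (fun b hb => h b (by simp [hb]))]
    rfl

theorem base (hL2 : StL2) (hM1 : Helper75.CR.StM1) (hN1 : StN1) (ρ : FIC) (hC : CRF ρ) (hP : PII ρ)
    (h3 : P3 ρ) (k : ℕ) (W : Wd) (hW : ρ.r (List.replicate (k + 1) (X 0)) W)
    (hY : Y 0 ∈ W) : SLc ρ := by
  have hcr := (hM1 ρ hC).1
  have hXX : Jl (toP ρ) [X 0] [X 0] := ⟨[], [], ρ.refl' _⟩
  obtain ⟨a, d, h1⟩ := (hL2 Bool SB (toP ρ) hcr [X 0] (List.replicate (k + 1) (X 0)) (by simp)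
    (fun b hb => by rw [List.eq_of_mem_replicate hb]; exact hXX)).2.2 (by simp)
  have h1' : ρ.r [X 0] (a ++ W ++ d) := ρ.trans' h1 (ρ.mul' a d hW)
  obtain ⟨p, q, rfl⟩ := List.append_of_mem hY
  have hJ : Jl (toP ρ) [X 0] [Y 0] := ⟨a ++ p, q ++ d, by
    show ρ.r _ _
    simpa [List.append_assoc] using h1'⟩
  obtain ⟨r, hr⟩ := (hL2 Bool SB (toP ρ) hcr [X 0] [Y 0] (by simp)
    (fun b hb => by rw [List.mem_singleton.1 hb]; exact hJ)).1
  have h2 : ρ.r [X 0] ([X 0] ++ st [X 0]) := hN1 ρ hP [X 0] (by simp) ⟨r, hr⟩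
  have h4 : ∀ s : Wd, s ≠ [] → ρ.r s (s ++ st s) := by
    intro s hs
    have h5 := ρ.sub' (fun _ => s) (fun _ => hs) h2
    simpa [st_single, sb_append] using h5
  intro s t hs hst
  have ht : t ≠ [] := by
    rintro rfl
    obtain ⟨b, s', rfl⟩ := List.exists_cons_of_ne_nil hs
    simp at hst
  refine ρ.trans' (h4 s hs) (ρ.trans' (h3 _ _ (prd_app_st s hs) (prd_app_st t ht) ?_)
    (ρ.symm' (h4 t ht)))
  simp [hst]

theorem claimA (hL2 : StL2) (hM1 : Helper75.CR.StM1) (hN1 : StN1) (ρ : FIC) (hC : CRF ρ) (hP : PII ρ)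
    (h3 : P3 ρ) (w w' : Wd) (hw : w ≠ []) (hu : ¬ Prd w) (hr : ρ.r w w') (a : Lt)
    (ha' : a ∈ w') (ha : a ∉ w) : SLc ρ := by
  classical
  set f : ℕ → Wd := fun j => if j = a.1 then (if a.2 then [X 0] else [Y 0]) else
    (if ((j, true) : Lt) ∈ w then [Y 0] else [X 0]) with hf
  have hne : ∀ i, f i ≠ [] := by
    intro i
    simp only [hf]
    split_ifs <;> simp
  have h1 : sb f w = List.replicate w.length (X 0) := by
    apply sb_replicate
    rintro ⟨j, s⟩ hb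
    simp only [hf]
    by_cases hj : j = a.1
    · subst hj
      rcases a with ⟨i, t⟩
      have hst : s ≠ t := by
        rintro rfl
        exact ha hb
      cases s <;> cases t <;> simp_all
    · rw [if_neg hj]
      by_cases hm : ((j, true) : Lt) ∈ w
      · rw [if_pos hm]
        cases s
        · exact absurd ⟨j, hb, hm⟩ hu
        · simp
      · rw [if_neg hm]
        cases s
        · simp
        · exact absurd hb hm
  have h2 : Y 0 ∈ sb f w' := by
    obtain ⟨p, q, rfl⟩ := List.append_of_mem ha'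
    rw [sb_append, sb_cons]
    simp only [hf, if_true]
    rcases a with ⟨i, t⟩
    cases t <;> simp
  obtain ⟨k, hk⟩ : ∃ k, w.length = k + 1 := ⟨w.length - 1, by
    have := List.length_pos_iff.2 hw
    omega⟩
  have h4 := ρ.sub' f hne hr
  rw [h1, hk] at h4
  exact base hL2 hM1 hN1 ρ hC hP h3 k _ h4 h2

theorem hN4 (hL2 : StL2) (hM1 : Helper75.CR.StM1) (hN1 : StN1) : StN4 := by
  intro ρ hC hP h3 w w' hw hu hr hsc
  by_cases h : ∃ a ∈ w', a ∉ w
  · obtain ⟨a, ha', ha⟩ := h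
    exact claimA hL2 hM1 hN1 ρ hC hP h3 w w' hw hu hr a ha' ha
  · push Not at h
    have h2 : ∃ a ∈ w, a ∉ w' := by
      by_contra hcon
      push Not at hcon
      exact hsc (fun a => ⟨hcon a, h a⟩)
    obtain ⟨a, ha, ha'⟩ := h2
    refine claimA hL2 hM1 hN1 ρ hC hP h3 w' w (ρ.ne'' hr hw) ?_ (ρ.symm' hr) a ha ha'
    rintro ⟨i, h5, h6⟩
    exact hu ⟨i, h _ h5, h _ h6⟩

end Pool.Agent.Helper39.CR
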